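import Pool.Agent.Q307.AMin.Sub

/-!
# Closed subgroups of almost minimal groups need not be almost minimal

Let `c_0, c_1, …` be rational linear functionals on `ℝ` which vanish at `1` and have a biorthogonal
sequence. Let `N` be the group of all `(x, r mod 1)` in `(ℤ/4)^ℕ × ℝ/ℤ` such that the numbers `c_i(r)`
are integers congruent to `x_i` modulo two. It contains all elements of prime order, hence it is
essential in the compact group and minimal. The group `G = N × ℝ` is almost minimal. The closed
subgroup `H` of all `((x, r mod 1), r)` in `N × ℝ` is not: a closed minimal subgroup `M` consists of
elements with `r = 0`, so that `x` vanishes modulo two on it, and the quotient `H / M` contains, in each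
set `(1/n) U`, elements whose `x` is a fixed unit vector modulo two.
-/

set_option autoImplicit false

namespace Pool.Agent.Results.MP_e403d1_gt.ClosedSubgroups

open Pool.Agent.Q307.AMin

/-- There are an almost minimal abelian topological group `G` and a closed subgroup `H` of `G` which
is not almost minimal. -/
theorem result : ∃ (G : Type) (_ : AddCommGroup G) (_ : TopologicalSpace G)
    (_ : IsTopologicalAddGroup G) (_ : T2Space G), AlmostMinimal G ∧
    ∃ H : AddSubgroup G, IsClosed (H : Set G) ∧ ¬ AlmostMinimal H :=
  exists_counterexample

end Pool.Agent.Results.MP_e403d1_gt.ClosedSubgroups
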